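import Pool.Agent.H28.PL.DefsJ

/-!
# Row JL of plp_modules: residues modulo 4 (helper79)
-/

set_option autoImplicit false

open Finset
open Pool.Agent.H28.PL

namespace Pool.Agent.H79.PL

lemma prod_mod_four (S : Finset ℕ) (f : ℕ → ℕ) (h : ∀ d ∈ S, f d % 4 = 1) :
    (∏ d ∈ S, f d) % 4 = 1 := by
  rw [Finset.prod_nat_mod, Finset.prod_congr rfl h]
  simp

theorem pf_JL (hp : T_JP) (hu : T_JRU) (hv : T_JRV) : T_JL := by
  intro L hL c m hc
  have hB : Euc (fun k => AA c (1 * k) / AA c 1) := by
    rcases Nat.eq_zero_or_pos c with h0 | h0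
    · subst h0
      exact hu 1 odd_one
    · exact hv c 1 (by omega) odd_one
  obtain ⟨hB1, hB4, -, -⟩ := hB
  simp only [one_mul] at hB1 hB4
  have hA1 : AA c 1 ≠ 0 := by
    intro h0
    rw [h0] at hB1
    simp at hB1
  have hL1 : L (2 ^ c * 1) = AA c 1 := by
    have := hp L hL c 1 odd_one
    simpa using this
  induction m using Nat.strong_induction_on with
  | _ m ih =>
    intro hm hm1
    have hm0 : m ≠ 0 := by omega
    have h1 : m ∈ m.divisors := Nat.mem_divisors_self m hm0
    have h2 : 1 ∈ m.divisors.erase m := by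
      rw [mem_erase]
      exact ⟨by omega, Nat.one_mem_divisors.2 hm0⟩
    have hprod := hp L hL c m hm
    rw [← mul_prod_erase _ _ h1, ← mul_prod_erase _ _ h2, hL1] at hprod
    set P := ∏ d ∈ (m.divisors.erase m).erase 1, L (2 ^ c * d) with hP
    have hP4 : P % 4 = 1 := by
      refine prod_mod_four _ _ fun d hd => ?_
      rw [mem_erase, mem_erase, Nat.mem_divisors] at hd
      obtain ⟨hd1, hdm, hdv, -⟩ := hd
      have hd0 : 0 < d := Nat.pos_of_dvd_of_pos hdv (by omega)
      have hle := Nat.le_of_dvd (by omega) hdv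
      exact ih d (by omega) (Odd.of_dvd_nat hm hdv) (by omega)
    have h3 : AA c m / AA c 1 = L (2 ^ c * m) * P := by
      rw [← hprod]
      have : L (2 ^ c * m) * (AA c 1 * P) = AA c 1 * (L (2 ^ c * m) * P) := by ring
      rw [this]
      exact Nat.mul_div_cancel_left _ (Nat.pos_of_ne_zero hA1)
    have h4 := hB4 m hm
    rw [h3, Nat.mul_mod, hP4, mul_one, Nat.mod_mod] at h4
    exact h4

end Pool.Agent.H79.PL
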