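import Pool.Agent.H28.PL.Defs

/-!
# Row AOD of plp_modules: Theorem A, `φ(m) / 2` odd and at least 5 (helper79)
-/

set_option autoImplicit false

open Finset
open Pool.Agent.H28.PL

namespace Pool.Agent.H79.PL

lemma al_sq : 5 ≤ al ^ 2 := by
  unfold al
  have h1 : (1 : ℝ) ≤ Real.sqrt 2 := by
    rw [Real.one_le_sqrt]
    norm_num
  have h2 : Real.sqrt 2 ^ 2 = 2 := Real.sq_sqrt (by norm_num)
  have h3 : (1 + Real.sqrt 2) ^ 2 = 1 + 2 * Real.sqrt 2 + Real.sqrt 2 ^ 2 := by ring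
  rw [h3, h2]
  linarith

lemma al_four : 33 ≤ al ^ 4 := by
  unfold al
  have h2 : Real.sqrt 2 ^ 2 = 2 := Real.sq_sqrt (by norm_num)
  have h1 : (4 / 3 : ℝ) ≤ Real.sqrt 2 := by
    refine Real.le_sqrt_of_sq_le ?_
    norm_num
  have h3 : (1 + Real.sqrt 2) ^ 4 = 17 + 12 * Real.sqrt 2 := by
    have : (1 + Real.sqrt 2) ^ 2 = 3 + 2 * Real.sqrt 2 := by
      ring_nf
      rw [h2]
      ring
    calc (1 + Real.sqrt 2) ^ 4 = ((1 + Real.sqrt 2) ^ 2) ^ 2 := by ring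
      _ = (3 + 2 * Real.sqrt 2) ^ 2 := by rw [this]
      _ = 9 + 12 * Real.sqrt 2 + 4 * Real.sqrt 2 ^ 2 := by ring
      _ = 17 + 12 * Real.sqrt 2 := by
          rw [h2]
          ring
  rw [h3]
  linarith

lemma one_le_al : 1 ≤ al := by
  unfold al
  have := Real.sqrt_nonneg 2
  linarith

theorem pf_AOD (hs : T_SQR) (hw : T_WJ) (he : T_WOD) (ha : T_APO) : T_AOD := by
  intro m s K z hm htot hK hKs hTT
  have hm2 : 2 < m := by
    have := Nat.totient_le m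
    omega
  have hs0 : 0 < s := by omega
  obtain ⟨h, F, hodd, hser, hF, hsq⟩ := hs m s hm hm2 hs0
  rw [hTT, Real.sqrt_sq (Nat.cast_nonneg z), htot] at hsq
  have hdiv : (4 * K + 2) / 2 = 2 * K + 1 := by omega
  rw [hdiv] at hsq
  have happ := ha h s K F 3 hs0 hser
  rw [← hsq] at happ
  obtain ⟨c, hc, hWW⟩ := he h s K hodd
  have hwK : w K ≤ K := hw.2.2.2.1 K
  -- the integer is not zero
  have hint : (1 : ℝ) ≤ |2 ^ (2 * K + 1) * (z : ℝ) - (WW h s (2 * K + 1) : ℝ)| := by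
    have h1 : ((2 : ℝ) ^ (2 * K + 1) * (z : ℝ) - (WW h s (2 * K + 1) : ℝ)) =
        (((2 : ℤ) ^ (2 * K + 1) * (z : ℤ) - WW h s (2 * K + 1) : ℤ) : ℝ) := by
      push_cast
      ring
    rw [h1, ← Int.cast_abs]
    have h2 : (2 : ℤ) ^ (2 * K + 1) * (z : ℤ) - WW h s (2 * K + 1) ≠ 0 := by
      intro h0
      rw [hWW] at h0
      have h3 : (2 : ℤ) ^ (2 * K + 1) = 2 ^ (w K + 2) * 2 ^ (2 * K + 1 - (w K + 2)) := by
        rw [← pow_add]
        congr 1
        omega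
      have h4 : (2 : ℤ) ^ (w K + 2) * (2 ^ (2 * K + 1 - (w K + 2)) * z - c) = 0 := by
        rw [mul_sub, ← mul_assoc, ← h3]
        exact h0
      have h5 : (2 : ℤ) ^ (2 * K + 1 - (w K + 2)) * z - c = 0 := by
        rcases mul_eq_zero.1 h4 with h6 | h6
        · exact absurd h6 (by positivity)
        · exact h6
      have h7 : Even ((2 : ℤ) ^ (2 * K + 1 - (w K + 2)) * z) := by
        refine Even.mul_right ?_ _
        exact (Int.even_pow' (by omega)).2 (by norm_num)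
      have h8 : c = (2 : ℤ) ^ (2 * K + 1 - (w K + 2)) * z := by linarith
      rw [h8] at hc
      exact (Int.not_even_iff_odd.2 hc) h7
    exact_mod_cast Int.one_le_abs h2
  have hx0 : 0 < al ^ s := by
    have := one_le_al
    positivity
  have h1 : al ^ s ≤ 3 * 2 ^ (3 * K + 2) := by
    have h2 := hint.trans happ
    rwa [le_div_iff₀ hx0, one_mul] at h2
  have h2 : (33 : ℝ) ^ K * 5 ≤ al ^ s := by
    calc (33 : ℝ) ^ K * 5 ≤ (al ^ 4) ^ K * al ^ 2 := by
          refine mul_le_mul (pow_le_pow_left₀ (by norm_num) al_four K) al_sq (by norm_num) ?_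
          have := al_four
          positivity
      _ = al ^ (4 * K + 2) := by rw [← pow_mul, ← pow_add]
      _ ≤ al ^ s := pow_le_pow_right₀ one_le_al hKs
  have h3 : (32 : ℝ) ^ K ≤ 33 ^ K := pow_le_pow_left₀ (by norm_num) (by norm_num) K
  have h4 : (32 : ℝ) ^ K = 8 ^ K * 4 ^ K := by
    rw [← mul_pow]
    norm_num
  have h5 : (16 : ℝ) ≤ 4 ^ K := by
    calc (16 : ℝ) = 4 ^ 2 := by norm_num
      _ ≤ 4 ^ K := pow_le_pow_right₀ (by norm_num) hK
  have h6 : (2 : ℝ) ^ (3 * K + 2) = 8 ^ K * 4 := by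
    rw [pow_add, pow_mul]
    norm_num
  rw [h6] at h1
  have h8 : (0 : ℝ) < 8 ^ K := by positivity
  have h9 : (8 : ℝ) ^ K * 16 ≤ 8 ^ K * 4 ^ K := mul_le_mul_of_nonneg_left h5 h8.le
  linarith

end Pool.Agent.H79.PL
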