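import Pool.Agent.H79.PL.JJ2

/-!
# The asymptotic formula close to the square root barrier (helper79)
-/

set_option autoImplicit false

open Finset MeasureTheory

namespace Pool.Agent.H79.PL

open Pool.Agent.H24.CL Pool.Agent.H24.LV Pool.Agent.H69.LVP

/-- AS2: the moment over `t ≤ |f|` for all `t` between `N^(1/2)` and `N^(3/4)`. -/
def T_AS2 : Prop :=
  ∀ k : ℕ, 3 ≤ k → ∃ c C : ℝ, 0 < c ∧ ∀ (N : ℕ) (t : ℝ), 1 ≤ N → (N : ℝ) ^ (1 / 2 : ℝ) ≤ t →
    t ≤ (N : ℝ) ^ (3 / 4 : ℝ) →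
      |(∫ a in {a : X k | t ≤ ‖f N a‖}, ‖f N a‖ ^ (2 * KN k)) -
        (N : ℝ) ^ (KN k) * ((∑' q : ℕ, st k (q + 1)) * ∫ γ : Fin k → ℝ, ‖vI γ‖ ^ (2 * KN k))| ≤
          C * (N : ℝ) ^ (KN k) * ((1 + Real.log N) ^ (2 / 3 : ℝ) *
            Real.exp (-(c * Real.log (t ^ 2 / N) ^ 3 / Real.log N ^ 2)))

theorem pf_AS2 (hFI2 : Pool.Agent.H26.ES.T_FI2) (hAS : M_AS) : T_AS2 := by
  intro k hk
  set K : ℕ := KN k with hK
  obtain ⟨c₀, C₀, hc₀, hC₀, HV⟩ := level hFI2 k hk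
  obtain ⟨C₁, hC₁, HS⟩ := sum_levels c₀ hc₀
  obtain ⟨-, -, hAS⟩ := hAS k hk
  obtain ⟨c', C', hc', HA⟩ := hAS (1 / 4) (by norm_num) (by norm_num)
  set SJ : ℝ := (∑' q : ℕ, st k (q + 1)) * ∫ γ : Fin k → ℝ, ‖vI γ‖ ^ (2 * K) with hSJ
  set c : ℝ := min c₀ (8 * c') with hc
  have hc1 : 0 < c := lt_min hc₀ (by positivity)
  have hcc₀ : c ≤ c₀ := min_le_left _ _
  have hcc' : c ≤ 8 * c' := min_le_right _ _
  set A : ℝ := 2 ^ (2 * K) * C₀ * C₁ with hA
  have hA0 : 0 ≤ A := by positivity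
  set B : ℝ := (3 ^ K + |SJ|) * Real.exp c with hB
  have hB0 : 0 ≤ B := by positivity
  refine ⟨c, A + |C'| + B, hc1, fun N t hN ht1 ht2 => ?_⟩
  have hN1 : (1 : ℝ) ≤ N := by exact_mod_cast hN
  have hN0 : (0 : ℝ) < N := by linarith
  have hlogN : 0 ≤ Real.log N := Real.log_nonneg hN1
  have hU : (1 : ℝ) ≤ (1 + Real.log N) ^ (2 / 3 : ℝ) :=
    Real.one_le_rpow (by linarith) (by norm_num)
  have hNK : 0 < (N : ℝ) ^ K := by positivity
  have ht0 : 0 < t := lt_of_lt_of_le (Real.rpow_pos_of_pos hN0 _) ht1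
  have hi := int_f k N (2 * K)
  have hmf : Measurable fun a : X k => ‖f N a‖ := (cont_f k N).norm.measurable
  set ℓ : ℝ := Real.log (t ^ 2 / N) with hℓ
  set L : ℝ := Real.log N with hL
  have htt1 : (N : ℝ) ≤ t ^ 2 := by
    calc (N : ℝ) = ((N : ℝ) ^ (1 / 2 : ℝ)) ^ 2 := by
          rw [← Real.rpow_natCast, ← Real.rpow_mul hN0.le]
          norm_num
      _ ≤ t ^ 2 := pow_le_pow_left₀ (by positivity) ht1 2
  have hℓ0 : 0 ≤ ℓ := Real.log_nonneg ((one_le_div hN0).mpr htt1)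
  have hlt : Real.log t ≤ 3 / 4 * L := by
    calc Real.log t ≤ Real.log ((N : ℝ) ^ (3 / 4 : ℝ)) := Real.log_le_log ht0 ht2
      _ = 3 / 4 * L := Real.log_rpow hN0 _
  have hℓL : ℓ ≤ L / 2 := by
    rw [hℓ, Real.log_div (by positivity) hN0.ne', Real.log_pow]
    push_cast
    linarith
  -- the exponent
  have hexp : c * ℓ ^ 3 / L ^ 2 ≤ c * (L / 8) := by
    rcases hlogN.eq_or_lt with h | h
    · rw [← h]
      norm_num
    · rw [div_le_iff₀ (by positivity)]
      have h1 : ℓ ^ 3 ≤ (L / 2) ^ 3 := pow_le_pow_left₀ hℓ0 hℓL 3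
      calc c * ℓ ^ 3 ≤ c * (L / 2) ^ 3 := mul_le_mul_of_nonneg_left h1 hc1.le
        _ = c * (L / 8) * L ^ 2 := by ring
  set E : ℝ := Real.exp (-(c * ℓ ^ 3 / L ^ 2)) with hE
  have hE0 : 0 < E := Real.exp_pos _
  have hfin : ∀ D : ℝ, 0 ≤ D → D * (N : ℝ) ^ K * E ≤
      D * (N : ℝ) ^ K * ((1 + L) ^ (2 / 3 : ℝ) * E) := by
    intro D hD
    apply mul_le_mul_of_nonneg_left _ (by positivity)
    exact le_mul_of_one_le_left hE0.le hU
  rcases Nat.lt_or_ge N 4 with hN4 | hN4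
  · -- small `N`
    have hN3 : (N : ℝ) ≤ 3 := by
      have : N ≤ 3 := by omega
      exact_mod_cast this
    have hL3 : L ≤ 2 := by
      have h1 : L ≤ Real.log 3 := Real.log_le_log hN0 hN3
      have h2 := Real.log_le_sub_one_of_pos (show (0 : ℝ) < 3 by norm_num)
      linarith
    have hE1 : 1 ≤ Real.exp c * E := by
      rw [hE, ← Real.exp_add]
      apply Real.one_le_exp
      nlinarith
    have h1 : ∫ a in {a : X k | t ≤ ‖f N a‖}, ‖f N a‖ ^ (2 * K) ≤ (N : ℝ) ^ (2 * K) := by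
      calc ∫ a in {a : X k | t ≤ ‖f N a‖}, ‖f N a‖ ^ (2 * K) ≤ ∫ a : X k, ‖f N a‖ ^ (2 * K) :=
            setIntegral_le_integral hi (Filter.Eventually.of_forall fun a => by positivity)
        _ ≤ ∫ _ : X k, (N : ℝ) ^ (2 * K) := by
            refine integral_mono hi (integrable_const _) fun a => ?_
            exact pow_le_pow_left₀ (norm_nonneg _) (norm_f_le N a) _
        _ = (N : ℝ) ^ (2 * K) := by rw [integral_const, X_univ, one_smul]
    have h0 : 0 ≤ ∫ a in {a : X k | t ≤ ‖f N a‖}, ‖f N a‖ ^ (2 * K) :=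
      integral_nonneg fun a => by positivity
    have h2 : (N : ℝ) ^ (2 * K) ≤ 3 ^ K * (N : ℝ) ^ K := by
      rw [two_mul, pow_add]
      exact mul_le_mul_of_nonneg_right (pow_le_pow_left₀ hN0.le hN3 K) hNK.le
    have h3 : |(∫ a in {a : X k | t ≤ ‖f N a‖}, ‖f N a‖ ^ (2 * K)) - (N : ℝ) ^ K * SJ| ≤
        (3 ^ K + |SJ|) * (N : ℝ) ^ K := by
      refine (abs_sub _ _).trans ?_
      rw [abs_of_nonneg h0, abs_mul, abs_of_pos hNK]
      linarith
    have h4 : (3 ^ K + |SJ|) * (N : ℝ) ^ K ≤ B * (N : ℝ) ^ K * E := by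
      calc (3 ^ K + |SJ|) * (N : ℝ) ^ K = (3 ^ K + |SJ|) * (N : ℝ) ^ K * 1 := by ring
        _ ≤ (3 ^ K + |SJ|) * (N : ℝ) ^ K * (Real.exp c * E) :=
            mul_le_mul_of_nonneg_left hE1 (by positivity)
        _ = B * (N : ℝ) ^ K * E := by rw [hB]; ring
    have h5 : B * (N : ℝ) ^ K * E ≤ (A + |C'| + B) * (N : ℝ) ^ K * E := by
      apply mul_le_mul_of_nonneg_right _ hE0.le
      apply mul_le_mul_of_nonneg_right _ hNK.le
      have := abs_nonneg C'
      linarith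
    exact h3.trans (h4.trans (h5.trans (hfin _ (by positivity))))
  · have hN4' : (4 : ℝ) ≤ N := by exact_mod_cast hN4
    have hlog2 : 0 < Real.log 2 := Real.log_pos (by norm_num)
    have hL0 : 0 < L := Real.log_pos (by linarith)
    set J : ℕ := ⌈(3 / 4 * L - Real.log t) / Real.log 2⌉₊ with hJ
    have hJ0 : 0 ≤ (3 / 4 * L - Real.log t) / Real.log 2 := by
      apply div_nonneg _ hlog2.le
      linarith
    have hJ2 : (N : ℝ) ^ (1 / 2 + 1 / 4 : ℝ) ≤ 2 ^ J * t := by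
      have h2 : (3 / 4 * L - Real.log t) / Real.log 2 ≤ J := Nat.le_ceil _
      rw [div_le_iff₀ hlog2] at h2
      calc (N : ℝ) ^ (1 / 2 + 1 / 4 : ℝ) = Real.exp (L * (1 / 2 + 1 / 4)) :=
            Real.rpow_def_of_pos hN0 _
        _ ≤ Real.exp (J * Real.log 2 + Real.log t) := Real.exp_le_exp.mpr (by linarith)
        _ = 2 ^ J * t := by
            rw [Real.exp_add, ← Real.log_pow, Real.exp_log (by positivity), Real.exp_log ht0]
    have hJ3 : ∀ j < J, (2 : ℝ) ^ j * t ≤ (N : ℝ) ^ (3 / 4 : ℝ) := by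
      intro j hj
      have h2 : (j : ℝ) < (3 / 4 * L - Real.log t) / Real.log 2 := Nat.lt_ceil.mp hj
      rw [lt_div_iff₀ hlog2] at h2
      calc (2 : ℝ) ^ j * t = Real.exp (j * Real.log 2 + Real.log t) := by
            rw [Real.exp_add, ← Real.log_pow, Real.exp_log (by positivity), Real.exp_log ht0]
        _ ≤ Real.exp (L * (3 / 4)) := Real.exp_le_exp.mpr (by linarith)
        _ = (N : ℝ) ^ (3 / 4 : ℝ) := (Real.rpow_def_of_pos hN0 _).symm
    set S0 : Set (X k) := {a | t ≤ ‖f N a‖} with hS0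
    set S1 : Set (X k) := {a | t ≤ ‖f N a‖ ∧ ‖f N a‖ < 2 ^ J * t} with hS1
    set S2 : Set (X k) := {a | (N : ℝ) ^ (1 / 2 + 1 / 4 : ℝ) ≤ ‖f N a‖} with hS2
    have hm0 : MeasurableSet S0 := measurableSet_le measurable_const hmf
    have hm1 : MeasurableSet S1 :=
      (measurableSet_le measurable_const hmf).inter (measurableSet_lt hmf measurable_const)
    have hm2 : MeasurableSet S2 := measurableSet_le measurable_const hmf
    have h34 : (1 / 2 + 1 / 4 : ℝ) = 3 / 4 := by norm_num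
    have hsub : S2 ⊆ S0 := by
      intro a ha
      have h1 : (N : ℝ) ^ (1 / 2 + 1 / 4 : ℝ) ≤ ‖f N a‖ := ha
      rw [h34] at h1
      exact ht2.trans h1
    have hcov : S0 ⊆ S1 ∪ S2 := by
      intro a ha
      by_cases h : ‖f N a‖ < 2 ^ J * t
      · exact Or.inl ⟨ha, h⟩
      · push Not at h
        exact Or.inr (hJ2.trans h)
    have hlow : ∫ a in S2, ‖f N a‖ ^ (2 * K) ≤ ∫ a in S0, ‖f N a‖ ^ (2 * K) :=
      setIntegral_mono_set hi.integrableOn (Filter.Eventually.of_forall fun a => by positivity)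
        hsub.eventuallyLE
    have hupp : ∫ a in S0, ‖f N a‖ ^ (2 * K) ≤
        (∫ a in S1, ‖f N a‖ ^ (2 * K)) + ∫ a in S2, ‖f N a‖ ^ (2 * K) := by
      rw [← integral_indicator hm0, ← integral_indicator hm1, ← integral_indicator hm2,
        ← integral_add (hi.indicator hm1) (hi.indicator hm2)]
      apply integral_mono (hi.indicator hm0) ((hi.indicator hm1).add (hi.indicator hm2))
      intro a
      have i1 : 0 ≤ S1.indicator (fun a => ‖f N a‖ ^ (2 * K)) a :=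
        Set.indicator_nonneg (fun _ _ => by positivity) a
      have i2 : 0 ≤ S2.indicator (fun a => ‖f N a‖ ^ (2 * K)) a :=
        Set.indicator_nonneg (fun _ _ => by positivity) a
      change S0.indicator (fun a => ‖f N a‖ ^ (2 * K)) a ≤
        S1.indicator (fun a => ‖f N a‖ ^ (2 * K)) a + S2.indicator (fun a => ‖f N a‖ ^ (2 * K)) a
      by_cases h : a ∈ S0
      · rw [Set.indicator_of_mem h]
        rcases hcov h with h' | h'
        · rw [Set.indicator_of_mem h']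
          linarith
        · rw [Set.indicator_of_mem h' (fun a => ‖f N a‖ ^ (2 * K))]
          linarith
      · rw [Set.indicator_of_notMem h]
        linarith
    have h10 : ∫ a in S1, ‖f N a‖ ^ (2 * K) ≤
        A * (N : ℝ) ^ K * ((1 + L) ^ (2 / 3 : ℝ) * E) := by
      refine (dya (volume : Measure (X k)) (fun a => ‖f N a‖) hmf
        (fun a => norm_nonneg _) t ht0 J (2 * K)).trans ?_
      have h11 : ∀ j ∈ range J, (2 : ℝ) ^ (2 * K) * ((volume : Measure (X k)).real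
          {x | 2 ^ j * t ≤ ‖f N x‖} * (2 ^ j * t) ^ (2 * K)) ≤
          (2 ^ (2 * K) * C₀ * (N : ℝ) ^ K * E) *
            Real.exp (-(c₀ * (j : ℝ) ^ 3 / L ^ 2)) := by
        intro j hj
        have hjt : t ≤ 2 ^ j * t := le_mul_of_one_le_left ht0.le (one_le_pow₀ (by norm_num))
        have h12 := HV N (2 ^ j * t) hN4 (ht1.trans hjt) (hJ3 j (mem_range.mp hj))
        have h13 : Real.log ((2 ^ j * t) ^ 2 / (N : ℝ)) = j * Real.log 4 + ℓ := by
          have h14 : (2 ^ j * t) ^ 2 / (N : ℝ) = 4 ^ j * (t ^ 2 / N) := by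
            rw [mul_pow, ← pow_mul, mul_comm j 2, pow_mul]
            norm_num
            ring
          rw [h14, Real.log_mul (by positivity) (by positivity), Real.log_pow]
        rw [h13] at h12
        have hl4 : (1 : ℝ) ≤ Real.log 4 := by
          have h14 : Real.log 4 = 2 * Real.log 2 := by
            rw [show (4 : ℝ) = 2 ^ 2 by norm_num, Real.log_pow]
            norm_num
          have := Real.log_two_gt_d9
          linarith
        have hj0 : (0 : ℝ) ≤ j := Nat.cast_nonneg _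
        have h15 : (j : ℝ) ^ 3 + ℓ ^ 3 ≤ ((j : ℝ) * Real.log 4 + ℓ) ^ 3 := by
          have h16 : (j : ℝ) ≤ (j : ℝ) * Real.log 4 := le_mul_of_one_le_right hj0 hl4
          calc (j : ℝ) ^ 3 + ℓ ^ 3 ≤ ((j : ℝ) + ℓ) ^ 3 := by
                have : 0 ≤ (j : ℝ) * ℓ * ((j : ℝ) + ℓ) := by positivity
                nlinarith
            _ ≤ ((j : ℝ) * Real.log 4 + ℓ) ^ 3 :=
                pow_le_pow_left₀ (by positivity) (by linarith) 3
        have h16 : Real.exp (-(c₀ * ((j : ℝ) * Real.log 4 + ℓ) ^ 3 / L ^ 2)) ≤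
            E * Real.exp (-(c₀ * (j : ℝ) ^ 3 / L ^ 2)) := by
          rw [hE, ← Real.exp_add]
          apply Real.exp_le_exp.mpr
          have h17 : c * ℓ ^ 3 ≤ c₀ * ℓ ^ 3 := mul_le_mul_of_nonneg_right hcc₀ (by positivity)
          have h18 : c₀ * ((j : ℝ) ^ 3 + ℓ ^ 3) ≤ c₀ * ((j : ℝ) * Real.log 4 + ℓ) ^ 3 :=
            mul_le_mul_of_nonneg_left h15 hc₀.le
          have h19 : (c * ℓ ^ 3 + c₀ * (j : ℝ) ^ 3) / L ^ 2 ≤
              c₀ * ((j : ℝ) * Real.log 4 + ℓ) ^ 3 / L ^ 2 := by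
            apply div_le_div_of_nonneg_right _ (by positivity)
            linarith
          rw [add_div] at h19
          linarith
        calc (2 : ℝ) ^ (2 * K) * ((volume : Measure (X k)).real
              {x | 2 ^ j * t ≤ ‖f N x‖} * (2 ^ j * t) ^ (2 * K)) ≤
              2 ^ (2 * K) * (C₀ * (N : ℝ) ^ K *
                Real.exp (-(c₀ * ((j : ℝ) * Real.log 4 + ℓ) ^ 3 / L ^ 2))) :=
              mul_le_mul_of_nonneg_left h12 (by positivity)
          _ ≤ 2 ^ (2 * K) * (C₀ * (N : ℝ) ^ K *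
                (E * Real.exp (-(c₀ * (j : ℝ) ^ 3 / L ^ 2)))) := by
              apply mul_le_mul_of_nonneg_left _ (by positivity)
              exact mul_le_mul_of_nonneg_left h16 (by positivity)
          _ = _ := by ring
      refine (sum_le_sum h11).trans ?_
      rw [← mul_sum]
      calc 2 ^ (2 * K) * C₀ * (N : ℝ) ^ K * E *
            ∑ j ∈ range J, Real.exp (-(c₀ * (j : ℝ) ^ 3 / L ^ 2)) ≤
            2 ^ (2 * K) * C₀ * (N : ℝ) ^ K * E * (C₁ * (1 + L) ^ (2 / 3 : ℝ)) :=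
            mul_le_mul_of_nonneg_left (HS L J hL0) (by positivity)
        _ = A * (N : ℝ) ^ K * ((1 + L) ^ (2 / 3 : ℝ) * E) := by rw [hA]; ring
    have h20 : |(∫ a in S2, ‖f N a‖ ^ (2 * K)) - (N : ℝ) ^ K * SJ| ≤
        C' * (N : ℝ) ^ ((K : ℝ) - c') := HA N hN
    have h21 : C' * (N : ℝ) ^ ((K : ℝ) - c') ≤ |C'| * (N : ℝ) ^ K * E := by
      have h22 : (N : ℝ) ^ ((K : ℝ) - c') ≤ (N : ℝ) ^ K * E := by
        rw [Real.rpow_sub hN0, Real.rpow_natCast, div_eq_mul_inv, ← Real.rpow_neg hN0.le]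
        apply mul_le_mul_of_nonneg_left _ hNK.le
        rw [Real.rpow_def_of_pos hN0]
        apply Real.exp_le_exp.mpr
        have h23 : c * (L / 8) ≤ c' * L := by nlinarith
        have h24 : L * -c' = -(c' * L) := by ring
        rw [← hL, h24]
        linarith
      calc C' * (N : ℝ) ^ ((K : ℝ) - c') ≤ |C'| * (N : ℝ) ^ ((K : ℝ) - c') :=
            mul_le_mul_of_nonneg_right (le_abs_self _) (by positivity)
        _ ≤ |C'| * ((N : ℝ) ^ K * E) := mul_le_mul_of_nonneg_left h22 (abs_nonneg _)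
        _ = |C'| * (N : ℝ) ^ K * E := by ring
    have h25 := hfin |C'| (abs_nonneg _)
    have h26 := (abs_le.mp h20).1
    have h27 := (abs_le.mp h20).2
    have hX0 : 0 ≤ (N : ℝ) ^ K * ((1 + L) ^ (2 / 3 : ℝ) * E) := by positivity
    have hBX : 0 ≤ B * ((N : ℝ) ^ K * ((1 + L) ^ (2 / 3 : ℝ) * E)) := mul_nonneg hB0 hX0
    have hAX : 0 ≤ A * ((N : ℝ) ^ K * ((1 + L) ^ (2 / 3 : ℝ) * E)) := mul_nonneg hA0 hX0
    have e1 : (A + |C'| + B) * (N : ℝ) ^ K * ((1 + L) ^ (2 / 3 : ℝ) * E) =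
        A * ((N : ℝ) ^ K * ((1 + L) ^ (2 / 3 : ℝ) * E)) +
          |C'| * (N : ℝ) ^ K * ((1 + L) ^ (2 / 3 : ℝ) * E) +
            B * ((N : ℝ) ^ K * ((1 + L) ^ (2 / 3 : ℝ) * E)) := by ring
    have e2 : A * (N : ℝ) ^ K * ((1 + L) ^ (2 / 3 : ℝ) * E) =
        A * ((N : ℝ) ^ K * ((1 + L) ^ (2 / 3 : ℝ) * E)) := by ring
    rw [e2] at h10
    rw [e1, abs_le]
    constructor <;> linarith

end Pool.Agent.H79.PL
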