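import Pool.Agent.H26.ES.TargetsF
import Pool.Agent.H69.LVP.LG

/-!
# The critical mean value from the level sets (helper79)
-/

set_option autoImplicit false

open Finset MeasureTheory

namespace Pool.Agent.H79.PL

open Pool.Agent.H24.CL Pool.Agent.H24.LV Pool.Agent.H69.LVP

/-- one level above the square root barrier -/
theorem level (hFI2 : Pool.Agent.H26.ES.T_FI2) (k : ℕ) (hk : 3 ≤ k) :
    ∃ c C : ℝ, 0 < c ∧ 0 ≤ C ∧ ∀ (N : ℕ) (s : ℝ), 4 ≤ N → (N : ℝ) ^ (1 / 2 : ℝ) ≤ s →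
      s ≤ (N : ℝ) ^ (3 / 4 : ℝ) →
      volume.real {a : X k | s ≤ ‖f N a‖} * s ^ (2 * KN k) ≤
        C * (N : ℝ) ^ KN k * Real.exp (-(c * Real.log (s ^ 2 / N) ^ 3 / Real.log N ^ 2)) := by
  obtain ⟨c, C, hc, H⟩ := hFI2 k hk
  refine ⟨c, max C 0, hc, le_max_right _ _, fun N s hN hs1 hs2 => ?_⟩
  set K : ℕ := KN k with hK
  have hN4 : (4 : ℝ) ≤ N := by exact_mod_cast hN
  have hN0 : (0 : ℝ) < N := by linarith
  have hN1 : (1 : ℝ) < N := by linarith
  have hs0 : 0 < s := lt_of_lt_of_le (Real.rpow_pos_of_pos hN0 _) hs1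
  have hr12 : ((N : ℝ) ^ (1 / 2 : ℝ)) ^ 2 = N := by
    rw [← Real.rpow_natCast, ← Real.rpow_mul hN0.le]
    norm_num
  have hr34 : ((N : ℝ) ^ (3 / 4 : ℝ)) ^ 2 = (N : ℝ) * (N : ℝ) ^ (1 / 2 : ℝ) := by
    rw [← Real.rpow_natCast, ← Real.rpow_mul hN0.le]
    nth_rewrite 2 [← Real.rpow_one (N : ℝ)]
    rw [← Real.rpow_add hN0]
    norm_num
  have hss1 : (N : ℝ) ≤ s ^ 2 := by
    rw [← hr12]
    exact pow_le_pow_left₀ (by positivity) hs1 2
  have hss2 : s ^ 2 ≤ (N : ℝ) * (N : ℝ) ^ (1 / 2 : ℝ) := by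
    rw [← hr34]
    exact pow_le_pow_left₀ hs0.le hs2 2
  set M : ℝ := (N : ℝ) ^ 2 / s ^ 2 with hM
  have hs20 : 0 < s ^ 2 := by positivity
  have hM0 : 0 < M := by positivity
  have hMh : (N : ℝ) ^ (1 / 2 : ℝ) ≤ M := by
    rw [hM, le_div_iff₀ hs20]
    calc (N : ℝ) ^ (1 / 2 : ℝ) * s ^ 2 ≤
          (N : ℝ) ^ (1 / 2 : ℝ) * ((N : ℝ) * (N : ℝ) ^ (1 / 2 : ℝ)) :=
          mul_le_mul_of_nonneg_left hss2 (by positivity)
      _ = (N : ℝ) * ((N : ℝ) ^ (1 / 2 : ℝ)) ^ 2 := by ring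
      _ = (N : ℝ) ^ 2 := by rw [hr12]; ring
  have h2 : (2 : ℝ) ≤ (N : ℝ) ^ (1 / 2 : ℝ) := by
    have h3 : (4 : ℝ) ^ (1 / 2 : ℝ) = 2 := by
      rw [show (4 : ℝ) = 2 ^ (2 : ℝ) by norm_num, ← Real.rpow_mul (by norm_num)]
      norm_num
    calc (2 : ℝ) = (4 : ℝ) ^ (1 / 2 : ℝ) := h3.symm
      _ ≤ (N : ℝ) ^ (1 / 2 : ℝ) := Real.rpow_le_rpow (by norm_num) hN4 (by norm_num)
  have hM2 : 2 ≤ M := h2.trans hMh
  have hMN : M ≤ N := by
    rw [hM, div_le_iff₀ hs20]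
    nlinarith
  have hNM : (N : ℝ) ≤ M ^ 2 := by
    rw [← hr12]
    exact pow_le_pow_left₀ (by positivity) hMh 2
  have h4 := H M N hM2 hMN hNM
  have hlM0 : 0 < Real.log M := Real.log_pos (by linarith)
  have hlMN : Real.log M ≤ Real.log N := Real.log_le_log hM0 hMN
  have hdiv : (N : ℝ) / M = s ^ 2 / N := by
    rw [hM]
    field_simp
  have hl0 : 0 ≤ Real.log (s ^ 2 / N) :=
    Real.log_nonneg ((one_le_div hN0).mpr hss1)
  rw [hdiv] at h4
  have h5 : Real.exp (-(c * Real.log (s ^ 2 / N) ^ 3 / Real.log M ^ 2)) ≤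
      Real.exp (-(c * Real.log (s ^ 2 / N) ^ 3 / Real.log N ^ 2)) := by
    apply Real.exp_le_exp.mpr
    apply neg_le_neg
    apply div_le_div_of_nonneg_left
    · positivity
    · positivity
    · exact pow_le_pow_left₀ hlM0.le hlMN 2
  have h6 : M ^ (-(1 / 2 : ℝ)) = s / N := by
    have h7 : M = ((N : ℝ) / s) ^ (2 : ℝ) := by
      rw [hM, Real.rpow_two, div_pow]
    rw [h7, ← Real.rpow_mul (by positivity)]
    have h8 : (2 : ℝ) * -(1 / 2) = -1 := by norm_num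
    rw [h8, Real.rpow_neg_one, inv_div]
  rw [h6] at h4
  have h9 : {a : X k | s / N ≤ ‖u N a‖} = {a : X k | s ≤ ‖f N a‖} := by
    ext a
    simp only [Set.mem_setOf_eq, u, norm_div, Complex.norm_natCast]
    exact div_le_div_iff_of_pos_right hN0
  rw [h9] at h4
  have h10 : s ^ (2 * K) = (s ^ 2) ^ K := by rw [pow_mul]
  have h11 : M ^ K * (s ^ 2) ^ K = (N : ℝ) ^ K * (N : ℝ) ^ K := by
    rw [← mul_pow, hM, div_mul_cancel₀ _ hs20.ne', ← mul_pow, sq]
  have hNK : 0 < (N : ℝ) ^ K := by positivity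
  set V : ℝ := volume.real {a : X k | s ≤ ‖f N a‖} with hV
  set E : ℝ := Real.exp (-(c * Real.log (s ^ 2 / N) ^ 3 / Real.log M ^ 2)) with hE
  set E' : ℝ := Real.exp (-(c * Real.log (s ^ 2 / N) ^ 3 / Real.log N ^ 2)) with hE'
  have hE0 : 0 < E := Real.exp_pos _
  have h12 : (N : ℝ) ^ K * V ≤ max C 0 * M ^ K * E' := by
    refine h4.trans ?_
    calc C * M ^ K * E ≤ max C 0 * M ^ K * E := by
          apply mul_le_mul_of_nonneg_right _ hE0.le
          exact mul_le_mul_of_nonneg_right (le_max_left _ _) (by positivity)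
      _ ≤ max C 0 * M ^ K * E' := mul_le_mul_of_nonneg_left h5
          (mul_nonneg (le_max_right _ _) (by positivity))
  rw [h10]
  have h13 : (N : ℝ) ^ K * (V * (s ^ 2) ^ K) ≤
      (N : ℝ) ^ K * (max C 0 * (N : ℝ) ^ K * E') := by
    calc (N : ℝ) ^ K * (V * (s ^ 2) ^ K) = ((N : ℝ) ^ K * V) * (s ^ 2) ^ K := by ring
      _ ≤ (max C 0 * M ^ K * E') * (s ^ 2) ^ K :=
          mul_le_mul_of_nonneg_right h12 (by positivity)
      _ = max C 0 * (M ^ K * (s ^ 2) ^ K) * E' := by ring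
      _ = (N : ℝ) ^ K * (max C 0 * (N : ℝ) ^ K * E') := by rw [h11]; ring
  exact le_of_mul_le_mul_left h13 hNK

/-- sum over blocks -/
theorem sum_blocks (b n : ℕ) (hb : 1 ≤ b) (g : ℕ → ℝ) :
    ∑ j ∈ range (b * n), g (j / b) = b * ∑ i ∈ range n, g i := by
  induction n with
  | zero => simp
  | succ n ih =>
    rw [mul_add, mul_one, sum_range_add, ih, sum_range_succ, mul_add]
    congr 1
    have h1 : ∀ x ∈ range b, g ((b * n + x) / b) = g n := by
      intro x hx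
      rw [Nat.mul_add_div (by omega), Nat.div_eq_of_lt (mem_range.mp hx), add_zero]
    rw [sum_congr rfl h1, sum_const, card_range, nsmul_eq_mul]

/-- the sum over the levels -/
theorem sum_levels (c : ℝ) (hc : 0 < c) : ∃ C : ℝ, 0 ≤ C ∧ ∀ (L : ℝ) (J : ℕ), 0 < L →
    ∑ j ∈ range J, Real.exp (-(c * (j : ℝ) ^ 3 / L ^ 2)) ≤ C * (1 + L) ^ (2 / 3 : ℝ) := by
  have he0 : 0 < Real.exp (-c) := Real.exp_pos _
  have he1 : Real.exp (-c) < 1 := Real.exp_lt_one_iff.mpr (by linarith)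
  refine ⟨2 * (1 / (1 - Real.exp (-c))), by
    have := sub_pos.mpr he1
    positivity, fun L J hL => ?_⟩
  set b : ℕ := ⌈L ^ (2 / 3 : ℝ)⌉₊ with hb
  have hL23 : 0 < L ^ (2 / 3 : ℝ) := Real.rpow_pos_of_pos hL _
  have hb1 : 1 ≤ b := Nat.one_le_ceil_iff.mpr hL23
  have hbL : L ^ (2 / 3 : ℝ) ≤ b := Nat.le_ceil _
  have hb3 : L ^ 2 ≤ (b : ℝ) ^ 3 := by
    calc L ^ 2 = (L ^ (2 / 3 : ℝ)) ^ 3 := by
          rw [← Real.rpow_natCast (L ^ (2 / 3 : ℝ)), ← Real.rpow_mul hL.le,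
            ← Real.rpow_natCast L]
          norm_num
      _ ≤ (b : ℝ) ^ 3 := pow_le_pow_left₀ hL23.le hbL 3
  have hbU : (b : ℝ) ≤ 2 * (1 + L) ^ (2 / 3 : ℝ) := by
    have h1 : (b : ℝ) ≤ L ^ (2 / 3 : ℝ) + 1 := (Nat.ceil_lt_add_one hL23.le).le
    have h2 : L ^ (2 / 3 : ℝ) ≤ (1 + L) ^ (2 / 3 : ℝ) :=
      Real.rpow_le_rpow hL.le (by linarith) (by norm_num)
    have h3 : (1 : ℝ) ≤ (1 + L) ^ (2 / 3 : ℝ) := Real.one_le_rpow (by linarith) (by norm_num)
    linarith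
  have hL2 : 0 < L ^ 2 := by positivity
  have hterm : ∀ j : ℕ, Real.exp (-(c * (j : ℝ) ^ 3 / L ^ 2)) ≤
      Real.exp (-c) ^ (j / b) := by
    intro j
    rw [← Real.exp_nat_mul]
    apply Real.exp_le_exp.mpr
    set i : ℕ := j / b with hi
    have h1 : (b : ℝ) * i ≤ j := by exact_mod_cast Nat.mul_div_le j b
    have h2 : ((b : ℝ) * i) ^ 3 ≤ (j : ℝ) ^ 3 := pow_le_pow_left₀ (by positivity) h1 3
    have h3 : (i : ℝ) ≤ (i : ℝ) ^ 3 := by
      rcases Nat.eq_zero_or_pos i with h | h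
      · rw [h]; norm_num
      · have : (1 : ℝ) ≤ i := by exact_mod_cast h
        nlinarith [sq_nonneg ((i : ℝ) - 1)]
    have h4 : (i : ℝ) * L ^ 2 ≤ (j : ℝ) ^ 3 := by
      calc (i : ℝ) * L ^ 2 ≤ (i : ℝ) ^ 3 * (b : ℝ) ^ 3 :=
            mul_le_mul h3 hb3 hL2.le (by positivity)
        _ = ((b : ℝ) * i) ^ 3 := by ring
        _ ≤ (j : ℝ) ^ 3 := h2
    have h5 : (i : ℝ) * c ≤ c * (j : ℝ) ^ 3 / L ^ 2 := by
      rw [le_div_iff₀ hL2]
      calc (i : ℝ) * c * L ^ 2 = c * ((i : ℝ) * L ^ 2) := by ring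
        _ ≤ c * (j : ℝ) ^ 3 := mul_le_mul_of_nonneg_left h4 hc.le
    linarith
  calc ∑ j ∈ range J, Real.exp (-(c * (j : ℝ) ^ 3 / L ^ 2)) ≤
        ∑ j ∈ range J, Real.exp (-c) ^ (j / b) := sum_le_sum fun j _ => hterm j
    _ ≤ ∑ j ∈ range (b * J), Real.exp (-c) ^ (j / b) := by
        refine sum_le_sum_of_subset_of_nonneg ?_ fun _ _ _ => by positivity
        exact range_subset_range.mpr (Nat.le_mul_of_pos_left J (by omega))
    _ = b * ∑ i ∈ range J, Real.exp (-c) ^ i :=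
        sum_blocks b J hb1 fun i => Real.exp (-c) ^ i
    _ ≤ b * (1 / (1 - Real.exp (-c))) := by
        apply mul_le_mul_of_nonneg_left _ (by positivity)
        rw [le_div_iff₀ (sub_pos.mpr he1), mul_comm, mul_neg_geom_sum]
        have : 0 ≤ Real.exp (-c) ^ J := by positivity
        linarith
    _ ≤ (2 * (1 + L) ^ (2 / 3 : ℝ)) * (1 / (1 - Real.exp (-c))) := by
        apply mul_le_mul_of_nonneg_right hbU
        have := sub_pos.mpr he1
        positivity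
    _ = 2 * (1 / (1 - Real.exp (-c))) * (1 + L) ^ (2 / 3 : ℝ) := by ring

theorem pf_JJ2 (hFI2 : Pool.Agent.H26.ES.T_FI2) (hLY : M_LY) : Pool.Agent.H26.ES.T_JJ2 := by
  intro k hk
  set K : ℕ := KN k with hK
  obtain ⟨c₀, C₀, hc₀, hC₀, HV⟩ := level hFI2 k hk
  obtain ⟨C₁, hC₁, HS⟩ := sum_levels c₀ hc₀
  obtain ⟨c, C, hc, HL⟩ := hLY k hk (1 / 4) (by norm_num)
  set A : ℝ := 2 ^ (2 * K) * C₀ * C₁ with hA
  have hA0 : 0 ≤ A := by positivity
  set D : ℝ := |C| * 2 ^ c with hD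
  have hD0 : 0 ≤ D := by positivity
  refine ⟨3 ^ K + 1 + A + D, fun N hN => ?_⟩
  have hN1 : (1 : ℝ) ≤ N := by exact_mod_cast hN
  have hN0 : (0 : ℝ) < N := by linarith
  have hlogN : 0 ≤ Real.log N := Real.log_nonneg hN1
  have hU : (1 : ℝ) ≤ (1 + Real.log N) ^ (2 / 3 : ℝ) :=
    Real.one_le_rpow (by linarith) (by norm_num)
  have hNK : 0 < (N : ℝ) ^ K := by positivity
  have hi := int_f k N (2 * K)
  rcases Nat.lt_or_ge N 4 with hN4 | hN4
  · -- small `N`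
    have hN3 : (N : ℝ) ≤ 3 := by
      have : N ≤ 3 := by omega
      exact_mod_cast this
    have h1 : ∫ a : X k, ‖f N a‖ ^ (2 * K) ≤ ∫ _ : X k, (N : ℝ) ^ (2 * K) := by
      refine integral_mono hi (integrable_const _) fun a => ?_
      exact pow_le_pow_left₀ (norm_nonneg _) (norm_f_le N a) _
    rw [integral_const, X_univ, one_smul] at h1
    refine h1.trans ?_
    have h2 : (N : ℝ) ^ (2 * K) ≤ 3 ^ K * (N : ℝ) ^ K := by
      rw [two_mul, pow_add]
      exact mul_le_mul_of_nonneg_right (pow_le_pow_left₀ hN0.le hN3 K) hNK.le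
    have h3 : (3 : ℝ) ^ K ≤ 3 ^ K + 1 + A + D := by linarith
    have h4 : 0 ≤ 3 ^ K + 1 + A + D := by positivity
    calc (N : ℝ) ^ (2 * K) ≤ 3 ^ K * (N : ℝ) ^ K := h2
      _ ≤ (3 ^ K + 1 + A + D) * (N : ℝ) ^ K := mul_le_mul_of_nonneg_right h3 hNK.le
      _ ≤ (3 ^ K + 1 + A + D) * (N : ℝ) ^ K * (1 + Real.log N) ^ (2 / 3 : ℝ) :=
          le_mul_of_one_le_right (by positivity) hU
  · have hN4' : (4 : ℝ) ≤ N := by exact_mod_cast hN4
    have hlog2 : 0 < Real.log 2 := Real.log_pos (by norm_num)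
    have hlogN0 : 0 < Real.log N := Real.log_pos (by linarith)
    set t : ℝ := (N : ℝ) ^ (1 / 2 : ℝ) with ht
    have ht0 : 0 < t := Real.rpow_pos_of_pos hN0 _
    have htt : t ^ 2 = N := by
      rw [ht, ← Real.rpow_natCast, ← Real.rpow_mul hN0.le]
      norm_num
    set J : ℕ := ⌈1 / 4 * Real.log N / Real.log 2⌉₊ with hJ
    have hJ2 : (N : ℝ) ^ (1 / 2 + 1 / 4 : ℝ) ≤ 2 ^ J * t := by
      have h1 : (N : ℝ) ^ (1 / 4 : ℝ) ≤ 2 ^ J := by
        have h2 : 1 / 4 * Real.log N / Real.log 2 ≤ J := Nat.le_ceil _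
        rw [div_le_iff₀ hlog2] at h2
        calc (N : ℝ) ^ (1 / 4 : ℝ) = Real.exp (Real.log N * (1 / 4)) :=
              Real.rpow_def_of_pos hN0 _
          _ ≤ Real.exp (J * Real.log 2) := Real.exp_le_exp.mpr (by linarith)
          _ = 2 ^ J := by rw [← Real.log_pow, Real.exp_log (by positivity)]
      rw [Real.rpow_add hN0, mul_comm]
      exact mul_le_mul_of_nonneg_right h1 ht0.le
    have hJ3 : ∀ j < J, (2 : ℝ) ^ j * t ≤ (N : ℝ) ^ (3 / 4 : ℝ) := by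
      intro j hj
      have h2 : (j : ℝ) < 1 / 4 * Real.log N / Real.log 2 := Nat.lt_ceil.mp hj
      rw [lt_div_iff₀ hlog2] at h2
      have h1 : (2 : ℝ) ^ j ≤ (N : ℝ) ^ (1 / 4 : ℝ) := by
        calc (2 : ℝ) ^ j = Real.exp (j * Real.log 2) := by
              rw [← Real.log_pow, Real.exp_log (by positivity)]
          _ ≤ Real.exp (Real.log N * (1 / 4)) := Real.exp_le_exp.mpr (by linarith)
          _ = (N : ℝ) ^ (1 / 4 : ℝ) := (Real.rpow_def_of_pos hN0 _).symm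
      calc (2 : ℝ) ^ j * t ≤ (N : ℝ) ^ (1 / 4 : ℝ) * t :=
            mul_le_mul_of_nonneg_right h1 ht0.le
        _ = (N : ℝ) ^ (3 / 4 : ℝ) := by
            rw [ht, ← Real.rpow_add hN0]
            norm_num
    set S1 : Set (X k) := {a | t ≤ ‖f N a‖ ∧ ‖f N a‖ < 2 ^ J * t} with hS1
    set S2 : Set (X k) := {a | (N : ℝ) ^ (1 / 2 + 1 / 4 : ℝ) ≤ ‖f N a‖ ∧ ‖f N a‖ < 2 * N} with hS2
    have hmf : Measurable fun a : X k => ‖f N a‖ := (cont_f k N).norm.measurable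
    have hm1 : MeasurableSet S1 :=
      (measurableSet_le measurable_const hmf).inter (measurableSet_lt hmf measurable_const)
    have hm2 : MeasurableSet S2 :=
      (measurableSet_le measurable_const hmf).inter (measurableSet_lt hmf measurable_const)
    have hpt : ∀ a : X k, ‖f N a‖ ^ (2 * K) ≤ (N : ℝ) ^ K +
        (S1.indicator (fun a => ‖f N a‖ ^ (2 * K)) a +
          S2.indicator (fun a => ‖f N a‖ ^ (2 * K)) a) := by
      intro a
      have i1 : 0 ≤ S1.indicator (fun a => ‖f N a‖ ^ (2 * K)) a :=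
        Set.indicator_nonneg (fun _ _ => by positivity) a
      have i2 : 0 ≤ S2.indicator (fun a => ‖f N a‖ ^ (2 * K)) a :=
        Set.indicator_nonneg (fun _ _ => by positivity) a
      have i3 : 0 ≤ (N : ℝ) ^ K := by positivity
      by_cases h1 : ‖f N a‖ < t
      · have h2 : ‖f N a‖ ^ (2 * K) ≤ t ^ (2 * K) := pow_le_pow_left₀ (norm_nonneg _) h1.le _
        have h3 : t ^ (2 * K) = (N : ℝ) ^ K := by rw [pow_mul, htt]
        linarith
      · push Not at h1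
        by_cases h2 : ‖f N a‖ < 2 ^ J * t
        · have h3 : a ∈ S1 := ⟨h1, h2⟩
          have h4 : S1.indicator (fun a => ‖f N a‖ ^ (2 * K)) a = ‖f N a‖ ^ (2 * K) :=
            Set.indicator_of_mem h3 _
          linarith
        · push Not at h2
          have h3 : a ∈ S2 := ⟨hJ2.trans h2, (norm_f_le N a).trans_lt (by linarith)⟩
          have h4 : S2.indicator (fun a => ‖f N a‖ ^ (2 * K)) a = ‖f N a‖ ^ (2 * K) :=
            Set.indicator_of_mem h3 _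
          linarith
    have h5 : ∫ a : X k, ‖f N a‖ ^ (2 * K) ≤ (N : ℝ) ^ K +
        ((∫ a in S1, ‖f N a‖ ^ (2 * K)) + ∫ a in S2, ‖f N a‖ ^ (2 * K)) := by
      have h6 := integral_mono hi ((integrable_const ((N : ℝ) ^ K)).add
        ((hi.indicator hm1).add (hi.indicator hm2))) hpt
      refine h6.trans (le_of_eq ?_)
      have h7 := integral_add (μ := (volume : Measure (X k))) (integrable_const ((N : ℝ) ^ K))
        ((hi.indicator hm1).add (hi.indicator hm2))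
      have h8 := integral_add (μ := (volume : Measure (X k))) (hi.indicator hm1)
        (hi.indicator hm2)
      rw [integral_indicator hm1, integral_indicator hm2] at h8
      have h9 : ∫ _ : X k, (N : ℝ) ^ K = (N : ℝ) ^ K := by
        rw [integral_const, X_univ, one_smul]
      rw [← h8]
      refine h7.trans ?_
      rw [h9]
      rfl
    have h10 : ∫ a in S1, ‖f N a‖ ^ (2 * K) ≤
        A * (N : ℝ) ^ K * (1 + Real.log N) ^ (2 / 3 : ℝ) := by
      refine (dya (volume : Measure (X k)) (fun a => ‖f N a‖) hmf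
        (fun a => norm_nonneg _) t ht0 J (2 * K)).trans ?_
      have h11 : ∀ j ∈ range J, (2 : ℝ) ^ (2 * K) * ((volume : Measure (X k)).real
          {x | 2 ^ j * t ≤ ‖f N x‖} * (2 ^ j * t) ^ (2 * K)) ≤
          (2 ^ (2 * K) * C₀ * (N : ℝ) ^ K) *
            Real.exp (-(c₀ * (j : ℝ) ^ 3 / Real.log N ^ 2)) := by
        intro j hj
        have hjt : t ≤ 2 ^ j * t := le_mul_of_one_le_left ht0.le (one_le_pow₀ (by norm_num))
        have h12 := HV N (2 ^ j * t) hN4 hjt (hJ3 j (mem_range.mp hj))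
        have h13 : (2 ^ j * t) ^ 2 / (N : ℝ) = 4 ^ j := by
          rw [mul_pow, htt, mul_div_assoc, div_self hN0.ne', mul_one, ← pow_mul, mul_comm j 2,
            pow_mul]
          norm_num
        rw [h13, Real.log_pow] at h12
        have hl4 : (1 : ℝ) ≤ Real.log 4 := by
          have h14 : Real.log 4 = 2 * Real.log 2 := by
            rw [show (4 : ℝ) = 2 ^ 2 by norm_num, Real.log_pow]
            norm_num
          have := Real.log_two_gt_d9
          linarith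
        have h15 : (j : ℝ) ^ 3 ≤ ((j : ℝ) * Real.log 4) ^ 3 :=
          pow_le_pow_left₀ (Nat.cast_nonneg _) (le_mul_of_one_le_right (Nat.cast_nonneg _) hl4) 3
        have h16 : Real.exp (-(c₀ * ((j : ℝ) * Real.log 4) ^ 3 / Real.log N ^ 2)) ≤
            Real.exp (-(c₀ * (j : ℝ) ^ 3 / Real.log N ^ 2)) := by
          apply Real.exp_le_exp.mpr
          apply neg_le_neg
          exact div_le_div_of_nonneg_right (mul_le_mul_of_nonneg_left h15 hc₀.le) (by positivity)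
        calc (2 : ℝ) ^ (2 * K) * ((volume : Measure (X k)).real
              {x | 2 ^ j * t ≤ ‖f N x‖} * (2 ^ j * t) ^ (2 * K)) ≤
              2 ^ (2 * K) * (C₀ * (N : ℝ) ^ K *
                Real.exp (-(c₀ * ((j : ℝ) * Real.log 4) ^ 3 / Real.log N ^ 2))) :=
              mul_le_mul_of_nonneg_left h12 (by positivity)
          _ ≤ 2 ^ (2 * K) * (C₀ * (N : ℝ) ^ K *
                Real.exp (-(c₀ * (j : ℝ) ^ 3 / Real.log N ^ 2))) := by
              apply mul_le_mul_of_nonneg_left _ (by positivity)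
              exact mul_le_mul_of_nonneg_left h16 (by positivity)
          _ = _ := by ring
      refine (sum_le_sum h11).trans ?_
      rw [← mul_sum]
      calc 2 ^ (2 * K) * C₀ * (N : ℝ) ^ K *
            ∑ j ∈ range J, Real.exp (-(c₀ * (j : ℝ) ^ 3 / Real.log N ^ 2)) ≤
            2 ^ (2 * K) * C₀ * (N : ℝ) ^ K * (C₁ * (1 + Real.log N) ^ (2 / 3 : ℝ)) :=
            mul_le_mul_of_nonneg_left (HS (Real.log N) J hlogN0) (by positivity)
        _ = A * (N : ℝ) ^ K * (1 + Real.log N) ^ (2 / 3 : ℝ) := by rw [hA]; ring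
    have h16 : ∫ a in S2, ‖f N a‖ ^ (2 * K) ≤ D * (N : ℝ) ^ K := by
      have h17 : (N : ℝ) ^ (1 / 2 + 1 / 4 : ℝ) ≤ 2 * N := by
        calc (N : ℝ) ^ (1 / 2 + 1 / 4 : ℝ) ≤ (N : ℝ) ^ (1 : ℝ) :=
              Real.rpow_le_rpow_of_exponent_le hN1 (by norm_num)
          _ = N := Real.rpow_one _
          _ ≤ 2 * N := by linarith
      have h18 := (HL N (2 * N) hN h17).2
      have h19 : (2 * (N : ℝ) / N) = 2 := by field_simp
      rw [h19] at h18
      refine h18.trans ?_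
      calc C * (N : ℝ) ^ K * 2 ^ c = (C * 2 ^ c) * (N : ℝ) ^ K := by ring
        _ ≤ D * (N : ℝ) ^ K := by
            apply mul_le_mul_of_nonneg_right _ hNK.le
            exact mul_le_mul_of_nonneg_right (le_abs_self C) (by positivity)
    refine h5.trans ?_
    have h20 : (N : ℝ) ^ K ≤ (N : ℝ) ^ K * (1 + Real.log N) ^ (2 / 3 : ℝ) :=
      le_mul_of_one_le_right hNK.le hU
    have h21 : D * (N : ℝ) ^ K ≤ D * (N : ℝ) ^ K * (1 + Real.log N) ^ (2 / 3 : ℝ) :=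
      le_mul_of_one_le_right (by positivity) hU
    have h22 : 0 ≤ 3 ^ K * ((N : ℝ) ^ K * (1 + Real.log N) ^ (2 / 3 : ℝ)) := by positivity
    calc (N : ℝ) ^ K + ((∫ a in S1, ‖f N a‖ ^ (2 * K)) + ∫ a in S2, ‖f N a‖ ^ (2 * K)) ≤
          (N : ℝ) ^ K * (1 + Real.log N) ^ (2 / 3 : ℝ) +
            (A * (N : ℝ) ^ K * (1 + Real.log N) ^ (2 / 3 : ℝ) +
              D * (N : ℝ) ^ K * (1 + Real.log N) ^ (2 / 3 : ℝ)) := by linarith
      _ ≤ 3 ^ K * ((N : ℝ) ^ K * (1 + Real.log N) ^ (2 / 3 : ℝ)) +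
          ((N : ℝ) ^ K * (1 + Real.log N) ^ (2 / 3 : ℝ) +
            (A * (N : ℝ) ^ K * (1 + Real.log N) ^ (2 / 3 : ℝ) +
              D * (N : ℝ) ^ K * (1 + Real.log N) ^ (2 / 3 : ℝ))) := by linarith
      _ = (3 ^ K + 1 + A + D) * (N : ℝ) ^ K * (1 + Real.log N) ^ (2 / 3 : ℝ) := by ring

end Pool.Agent.H79.PL
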