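import Pool.Agent.H24.LVP.All
import Pool.Agent.H22.EST.PCP
import Pool.Agent.H29.EST.NLP
import Pool.Agent.H30.EST.MVV
import Pool.Agent.H31.ES.JEP
import Pool.Agent.H31.ES.STP
import Pool.Agent.H31.EST.RIP
import Pool.Agent.H35.EST.GMP
import Pool.Agent.H37.ES.CVP
import Pool.Agent.H37.ES.NWT
import Pool.Agent.H43.ES.LMP
import Pool.Agent.H43.ES.TRP
import Pool.Agent.H50.EST.SHP
import Pool.Agent.H59.ES.PLP
import Pool.Agent.H59.ES.RTN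
import Pool.Agent.H61.EST.TPU
import Pool.Agent.H76.ES.TPM
import Pool.Agent.H78.EST.PRP
import Pool.Agent.H79.EST.SRP
import Pool.Agent.H8.EST.LCP
import Pool.Agent.H91.EST.LOP

/-!
# The closed theorems of the star part (helper79)
-/

set_option autoImplicit false

namespace Pool.Agent.H79.PL

open Pool.Agent.H24.LVP Pool.Agent.H24.CL

theorem sSHP : Pool.Agent.H26.ES.T_SHP := Pool.Agent.H50.EST.pf_SHP rTO rSH aCO

theorem sSTP : Pool.Agent.H26.ES.T_STP := Pool.Agent.H31.ES.pf_STP aSC aCO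

theorem sJEP : Pool.Agent.H26.ES.T_JEP := Pool.Agent.H31.ES.pf_JEP sSTP

theorem sLOP : Pool.Agent.H26.ES.T_LOP := Pool.Agent.H91.EST.pf_LOP sSTP

theorem sCVP : Pool.Agent.H26.ES.T_CVP := Pool.Agent.H37.ES.pf_CVP aSC aCO

theorem sNWT : Pool.Agent.H26.ES.T_NWT := Pool.Agent.H37.ES.pf_NWT

theorem sGMP : Pool.Agent.H26.ES.T_GMP := Pool.Agent.H35.EST.pf_GMP aGM sSHP aCO aAI

theorem sTPM : Pool.Agent.H26.ES.T_TPM := Pool.Agent.H76.ES.pf_TPM aCO aAI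

theorem sTPU : Pool.Agent.H26.ES.T_TPU := Pool.Agent.H61.EST.pf_TPU sSHP aSC aCO

theorem sMVV : Pool.Agent.H26.ES.T_MVV := Pool.Agent.H30.EST.pf_MVV sNWT sTPU sTPM aWT

theorem sRTN : Pool.Agent.H26.ES.T_RTN := Pool.Agent.H59.ES.pf_RTN sTPU sTPM aWT

theorem sPRP : Pool.Agent.H26.ES.T_PRP :=
  Pool.Agent.H78.EST.pf_PRP aWT aFB aPT sMVV sRTN sNWT sGMP

theorem sPCP : Pool.Agent.H26.ES.T_PCP := Pool.Agent.H22.EST.pf_PCP aCO sSHP

theorem sPLP : Pool.Agent.H26.ES.T_PLP := Pool.Agent.H59.ES.pf_PLP sPCP aCO aAI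

theorem sNLP : Pool.Agent.H26.ES.T_NLP := Pool.Agent.H29.EST.pf_NLP aCO

theorem sLCP : Pool.Agent.H26.ES.T_LCP := Pool.Agent.H8.EST.pf_LCP aCO aCT

theorem sLMP : Pool.Agent.H26.ES.T_LMP := Pool.Agent.H43.ES.pf_LMP sPLP sLCP aCO aAI

theorem sTRP : Pool.Agent.H26.ES.T_TRP := Pool.Agent.H43.ES.pf_TRP aCO aAI

theorem sRIP : Pool.Agent.H26.ES.T_RIP := Pool.Agent.H31.EST.pf_RIP rMP sLMP sNLP sTRP aCO

theorem sSRP : Pool.Agent.H26.ES.T_SRP :=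
  Pool.Agent.H79.EST.pf_SRP aWT aFP aPP aGM sGMP sPRP sJEP sLOP sRIP sCVP

end Pool.Agent.H79.PL
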