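import Pool.Agent.H47.PL.Targets

/-!
Board `pln_modules`, row NC2: a derivation of a line which is false in a state is long.
-/

set_option autoImplicit false

namespace Pool.Agent.H79.PL

open Finset Pool.Agent.H97.RK Pool.Agent.H47.PL

theorem pf_NC2 (hTAR : Pool.Agent.H47.PL.T_TAR) (hMDD : Pool.Agent.H47.PL.T_MDD)
    (hCR2 : Pool.Agent.H47.PL.T_CR2) : Pool.Agent.H47.PL.T_NC2 := by
  classical
  intro n k m F j t d e s₀ hP S line rule hD y A W J hSt r hr hF hvs
  have hcard : (A ∪ W).card + ((A ∪ W)ᶜ).card = n := by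
    rw [Finset.card_add_card_compl, Fintype.card_fin]
  have hW : W.card ≤ e := by
    refine le_trans hSt.crd (le_trans ?_ hP.je)
    exact Nat.mul_le_mul le_rfl hSt.lt.le
  have hAW : (A ∪ W).card ≤ A.card + W.card := Finset.card_union_le A W
  have hA : A.card ≤ (A ∪ W).card := Finset.card_le_card Finset.subset_union_left
  refine ⟨((A ∪ W)ᶜ).card, by omega, by omega, ?_⟩
  refine hCR2 n ((A ∪ W)ᶜ) y S (d + 2 * t) t (e + d) line ?_
  intro x B hx hBV hBa
  have h1 : ∀ u ∈ A ∪ W, x u = y u := by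
    intro u hu
    apply hx
    rw [Finset.mem_compl]
    exact fun h => h hu
  have h2 : (A ∪ B).card ≤ A.card + B.card := Finset.card_union_le A B
  obtain ⟨y', W', J', hSt', hyA, hdst⟩ := hTAR n k m F j t d e s₀ hP y A W J hSt x B h1
    (by omega)
  have h3 : Falsified (line r) y' := by
    intro l hl
    have h4 : l.1 ∈ vs (line r) := Finset.mem_image_of_mem _ hl
    rw [hyA l.1 (hvs h4)]
    exact hF l hl
  obtain ⟨i, hi, z, hz, hFz, hn⟩ := hMDD n k m F j t d e s₀ hP S line rule hD y' (A ∪ B) W' J'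
    hSt' r hr h3 (hvs.trans Finset.subset_union_left)
  refine ⟨i, hi, y', z, hdst, fun u hu => hz u (Finset.mem_union_right _ hu), hFz, ?_⟩
  have h5 : (A ∪ B) ∪ vs (line i) ⊆ (A ∪ W) ∪ (B ∪ (vs (line i) ∩ (A ∪ W)ᶜ)) := by
    intro u hu
    rcases Finset.mem_union.1 hu with hu | hu
    · rcases Finset.mem_union.1 hu with hu | hu
      · exact Finset.mem_union_left _ (Finset.mem_union_left _ hu)
      · exact Finset.mem_union_right _ (Finset.mem_union_left _ hu)
    · by_cases h : u ∈ A ∪ W
      · exact Finset.mem_union_left _ h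
      · exact Finset.mem_union_right _ (Finset.mem_union_right _
          (Finset.mem_inter.2 ⟨hu, Finset.mem_compl.2 h⟩))
  have h6 := Finset.card_le_card h5
  have h7 := Finset.card_union_le (A ∪ W) (B ∪ (vs (line i) ∩ (A ∪ W)ᶜ))
  omega

end Pool.Agent.H79.PL
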