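import Pool.Agent.H25.PL.BDX
import Pool.Agent.H79.LVP.GAL

/-!
# The game with a logarithmic length and explicit constants (helper79)

A copy of `Pool.Agent.H79.LVP.pf_GAL`.
-/

set_option autoImplicit false

open Finset

namespace Pool.Agent.H79.PL

open Pool.Agent.H24.CL Pool.Agent.H24.LV Pool.Agent.H31.CLK Pool.Agent.H79.LVP
open Pool.Agent.H25.PL (GAc)

theorem gax : ∀ k : ℕ, 3 ≤ k → ∃ CA c₀ kap : ℝ, 1 ≤ CA ∧ 0 < c₀ ∧ c₀ ≤ 1 ∧ 0 < kap ∧ kap ≤ 1 ∧
    ∀ c₁ D : ℝ, 0 < c₁ → c₁ ≤ 1 → CA * (1 + Real.log (1 / c₁)) ≤ D →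
      GAc k c₁ D (c₀ * c₁) kap := by
  classical
  intro k hk
  have hk3 : (3 : ℝ) ≤ k := by exact_mod_cast hk
  have hKN : (6 : ℝ) ≤ (KN k : ℝ) := by
    rw [KN_real]; nlinarith
  obtain ⟨del, hdel⟩ : ∃ del : ℝ, del = 1 / (8 * k * ((KN k : ℝ) + 4)) := ⟨_, rfl⟩
  have hdel0 : 0 < del := by rw [hdel]; positivity
  have hdelmul : del * (8 * k * ((KN k : ℝ) + 4)) = 1 := by
    rw [hdel]; field_simp
  have hdelk : del * (8 * k) ≤ 1 := by
    have h1 : 0 < del * (8 * k) := by positivity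
    nlinarith
  have hdelK : del * ((KN k : ℝ) + 4) ≤ 1 / 24 := by
    have h1 : 0 < del * ((KN k : ℝ) + 4) := by positivity
    nlinarith
  have hdel1 : del ≤ 1 / 24 := by nlinarith
  have hk27 : (27 : ℝ) ≤ (k : ℝ) ^ 3 := by
    have : (3 : ℝ) ^ 3 ≤ (k : ℝ) ^ 3 := pow_le_pow_left₀ (by norm_num) hk3 3
    linarith
  have hkk3 : (k : ℝ) ≤ (k : ℝ) ^ 3 := le_self_pow₀ (by linarith) (by norm_num)
  obtain ⟨es, hes⟩ : ∃ es : ℝ, es = del / 8 := ⟨_, rfl⟩
  have hes0 : 0 < es := by rw [hes]; positivity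
  obtain ⟨c, hc⟩ : ∃ c : ℝ, c = 1 / (8 * (k : ℝ) ^ 3) := ⟨_, rfl⟩
  have hc0 : 0 < c := by rw [hc]; positivity
  have hcmul : c * (8 * (k : ℝ) ^ 3) = 1 := by rw [hc]; field_simp
  have hck : (k : ℝ) * c ≤ 1 / 8 := by
    have : (k : ℝ) * c ≤ (k : ℝ) ^ 3 * c := mul_le_mul_of_nonneg_right hkk3 hc0.le
    linarith
  obtain ⟨η, hη⟩ : ∃ η : ℝ, η = min c (es / (4 * (k : ℝ) ^ 3)) := ⟨_, rfl⟩
  have hη0 : 0 < η := by rw [hη]; exact lt_min hc0 (by positivity)
  have hηc : η ≤ c := by rw [hη]; exact min_le_left _ _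
  have hηB : η * (4 * (k : ℝ) ^ 3) ≤ es := by
    have h1 : η ≤ es / (4 * (k : ℝ) ^ 3) := by rw [hη]; exact min_le_right _ _
    rwa [le_div_iff₀ (by positivity)] at h1
  obtain ⟨lam, hlam⟩ : ∃ lam : ℝ, lam = Real.log (1 + η) := ⟨_, rfl⟩
  have hlam0 : 0 < lam := by rw [hlam]; exact Real.log_pos (by linarith)
  obtain ⟨L₀, hL₀⟩ : ∃ L₀ : ℝ, L₀ = Real.log (16 * (k : ℝ) ^ 3 / del) := ⟨_, rfl⟩
  have hL₀0 : 0 ≤ L₀ := by
    rw [hL₀]
    refine Real.log_nonneg ?_
    rw [le_div_iff₀ hdel0]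
    linarith
  have hbig : 0 ≤ 2 * ((k : ℝ) + 1) * (L₀ + 1) / lam := by positivity
  refine ⟨8 * k + 16 + 2 * (k + 1) * (L₀ + 1) / lam, del / 8, del / 8, by linarith, by positivity,
    by linarith, by positivity, by linarith, ?_⟩
  intro c₁ D hc₁ hc₁' hD
  obtain ⟨c₃, hc₃⟩ : ∃ c₃ : ℝ, c₃ = c₁ * del / 4 := ⟨_, rfl⟩
  have hc₃0 : 0 < c₃ := by rw [hc₃]; positivity
  have hc₃del : c₃ ≤ del / 4 := by rw [hc₃]; nlinarith
  have hc₃c₁ : c₃ ≤ c₁ := by rw [hc₃]; nlinarith
  have hy : 0 ≤ Real.log (1 / c₁) := by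
    refine Real.log_nonneg ?_
    rw [le_div_iff₀ hc₁]
    linarith
  have hc32 : del / 8 * c₁ = c₃ / 2 := by rw [hc₃]; ring
  rw [hc32]
  intro m g p R hm hg hp hR hfew hpg hsum hl
  have hkap2 : del / 8 ≤ 1 / (8 * ((KN k : ℝ) + 4)) := by
    rw [le_div_iff₀ (by positivity)]
    nlinarith
  have hG : Gm k m R g p (del / 8) := ⟨hk, by positivity, hkap2, hg, hp, hR, hfew, hpg⟩
  have hp0 : ∀ j, 0 ≤ p j := fun j => (hp j).1
  have hD1 : 8 * (k : ℝ) + 16 + 2 * (k + 1) * (L₀ + 1) / lam ≤ D := by nlinarith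
  have hD2 : 2 * ((k : ℝ) + 1) * (L₀ + 1) / lam * (1 + Real.log (1 / c₁)) ≤ D := by
    have h1 : 0 ≤ (8 * (k : ℝ) + 16) * (1 + Real.log (1 / c₁)) := by positivity
    nlinarith
  have hmD : D - 4 ≤ m := by
    refine hsum.trans ?_
    calc ∑ j ∈ range m, (1 - g j) ≤ ∑ j ∈ range m, (1 : ℝ) := by
          apply Finset.sum_le_sum
          intro j _
          linarith [hg j]
      _ = m := by simp
  have hmk : 8 * k + 10 ≤ m := by
    have : (8 * (k : ℝ) + 10) ≤ m := by linarith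
    exact_mod_cast this
  have h0 : ∀ j < m, RW k R g p (del / 8) 0 j := by
    intro j hj
    exact rw_one hG hj (by norm_num) (hp0 j)
  -- the first gain
  have hG1 : c₃ ≤ PHI k g p R 0 ∨ ∃ j < k, RW k R g p (del / 8) c₃ j := by
    obtain ⟨l, hlk, hcl⟩ := hl
    rcases Nat.lt_or_ge (l + 1) k with h | h
    · left
      have h1 := PHI_zero_ge k g p R hg hp0 l h
      have h2 : c₁ ≤ min 1 (g l) := le_min hc₁' hcl
      linarith
    · obtain ⟨b, rfl⟩ : ∃ b, k = b + 3 := ⟨k - 3, by omega⟩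
      have hlb : l = b + 2 := by omega
      rw [hlb] at hcl
      by_cases hg2 : g (b + 1) * (4 * ((b + 3 : ℕ) : ℝ)) ≤ 1
      · right
        rcases gain hG del c₃ hdel0 hdelk le_rfl hc₃0 hc₃del b (by omega) (by linarith)
          (Or.inr hg2) with h1 | h1
        · exact ⟨b + 1, by omega, h1⟩
        · exact ⟨b, by omega, h1⟩
      · left
        rw [not_le] at hg2
        have h1 := PHI_zero_ge (b + 3) g p R hg hp0 (b + 1) (by omega)
        have h2 : c₃ ≤ min 1 (g (b + 1)) := by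
          apply le_min (by linarith)
          by_contra hcon
          rw [not_le] at hcon
          have h3 : g (b + 1) * (4 * ((b + 3 : ℕ) : ℝ)) ≤
              del / 4 * (4 * ((b + 3 : ℕ) : ℝ)) :=
            mul_le_mul_of_nonneg_right (by linarith) (by positivity)
          nlinarith
        linarith
  have hPHI00 := PHI_nonneg k g p R hg hp0 0
  obtain ⟨s₀, hs₀, hbase⟩ : ∃ s₀ : ℝ, c₃ ≤ s₀ ∧
      ∃ x : ℕ → ℝ, (∀ j < k, OptK k R g p (del / 8) j (x j)) ∧
        ∑ j ∈ range k, x j = s₀ - PHI k g p R k := by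
    rcases hG1 with h1 | ⟨j, hj, h1⟩
    · obtain ⟨x, hx1, hx2⟩ := collect k R g p (del / 8) 0 k ∅ (Finset.empty_subset _)
        (fun j hj => h0 j (by omega)) (fun j hj => absurd hj (Finset.notMem_empty j))
      refine ⟨PHI k g p R 0, h1, x, hx1, ?_⟩
      rw [hx2, zero_mul]
      ring
    · obtain ⟨x, hx1, hx2⟩ := collect k R g p (del / 8) c₃ k {j}
        (by
          intro a ha
          rw [Finset.mem_singleton] at ha
          rw [mem_range, ha]
          omega)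
        (fun j hj => h0 j (by omega)) (fun a ha => by
          rw [Finset.mem_singleton] at ha
          rw [ha]
          exact h1)
      refine ⟨PHI k g p R 0 + c₃, by linarith, x, hx1, ?_⟩
      rw [hx2, Finset.card_singleton]
      push_cast
      ring
  have hs₀0 : 0 < s₀ := by linarith
  set P : ℕ → ℝ → Prop := fun i θ => RW k R g p (del / 8) θ (k + i) with hP
  set S : ℕ → ℝ := SS P es c s₀ with hS
  have hS0 : ∀ i, s₀ ≤ S i := fun i => SS_pos P hes0 hc0 hs₀0 i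
  have hSm : Monotone S := SS_mono P hes0 hc0 hs₀0
  by_cases hno : ∃ i, k + i + (k - 1) ≤ m ∧ c₃ / 2 ≤ S i - PHI k g p R (k + i)
  · obtain ⟨i, hi1, hi2⟩ := hno
    obtain ⟨x, hx1, hx2⟩ := payoff (es := es) (c := c) h0 hbase i (by omega)
    refine ⟨k + i, x, hi1, hx1, ?_⟩
    rw [hx2]
    exact hi2
  exfalso
  push Not at hno
  have hSB : ∀ i, k + i + (k - 1) ≤ m → S i ≤ 4 * (k : ℝ) ^ 3 := by
    intro i hi
    have h1 := hno i hi
    have h2 := PHI_le k g p R hg hp0 (k + i) 1 zero_le_one (fun i' _ _ =>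
      ⟨min_le_left _ _, (hp i').2⟩)
    linarith
  obtain ⟨n₂, hn₂⟩ : ∃ n₂, n₂ = m - (k - 1) - k := ⟨_, rfl⟩
  set J := (range n₂).filter (fun i => P i (min es (c * S i))) with hJ
  have hgrow := SS_growth P hes0 hc0 hs₀0 hη0 hηc hηB n₂ (fun i hi => hSB i (by omega))
  have hend : S n₂ ≤ 4 * (k : ℝ) ^ 3 := hSB n₂ (by omega)
  have hJle : (J.card : ℝ) * lam ≤ L₀ + Real.log (1 / c₁) := by
    have h1 : c₃ * (1 + η) ^ J.card ≤ 4 * (k : ℝ) ^ 3 := by
      have h2 : c₃ * (1 + η) ^ J.card ≤ s₀ * (1 + η) ^ J.card :=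
        mul_le_mul_of_nonneg_right hs₀ (by positivity)
      have h3 : s₀ * (1 + η) ^ J.card ≤ S n₂ := hgrow
      linarith
    have h2 : (1 + η) ^ J.card ≤ 16 * (k : ℝ) ^ 3 / del * (1 / c₁) := by
      rw [hc₃] at h1
      have e : 16 * (k : ℝ) ^ 3 / del * (1 / c₁) = 4 * (k : ℝ) ^ 3 / (c₁ * del / 4) := by
        field_simp
        ring
      rw [e, le_div_iff₀ (by positivity)]
      linarith
    have h3 := Real.log_le_log (by positivity) h2
    rw [Real.log_pow, Real.log_mul (by positivity) (by positivity), ← hlam, ← hL₀] at h3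
    exact h3
  -- every non-full level gives a gain nearby
  have hnear : ∀ l, k + 2 ≤ l → l + 2 * k ≤ m → g l ≤ 1 - del →
      ∃ i ∈ J, l ≤ k + i + 2 ∧ k + i + 2 ≤ l + k := by
    intro l h1 h2 h3
    obtain ⟨i, hi⟩ : ∃ i, l = k + i := ⟨l - k, by omega⟩
    have hSi := hS0 i
    obtain ⟨θ, hθ⟩ : ∃ θ : ℝ, θ = min es (2 * c * S i) := ⟨_, rfl⟩
    have hSi0 : 0 < S i := by linarith
    have hθ0 : 0 < θ := by rw [hθ]; exact lt_min hes0 (by positivity)
    have hθes : θ ≤ es := by rw [hθ]; exact min_le_left _ _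
    have hθS : θ ≤ 2 * c * S i := by rw [hθ]; exact min_le_right _ _
    have hθdel : θ ≤ del / 4 := by linarith
    have hθk : θ * (4 * k) ≤ 1 := by
      have : θ * (4 * k) ≤ del / 8 * (4 * k) :=
        mul_le_mul_of_nonneg_right (by linarith) (by positivity)
      linarith
    have hex : ∃ i', l ≤ i' ∧ i' + 1 < l + k ∧ ¬ (g i' ≤ θ ∧ p i' ≤ θ) := by
      by_contra hcon
      push Not at hcon
      have h4 := PHI_le k g p R hg hp0 l θ hθ0.le (fun i' h5 h6 => by
        by_contra h7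
        have h8 : ¬ (g i' ≤ θ ∧ p i' ≤ θ) := by
          rintro ⟨h9, h10⟩
          exact h7 ⟨(min_le_right _ _).trans h9, h10⟩
        exact h8 (by
          by_contra h9
          have h10 := hcon i' h5 h6
          tauto))
      have h5 := hno i (by omega)
      rw [hi] at h4
      have h6 : 2 * (k : ℝ) ^ 3 * θ ≤ 2 * (k : ℝ) ^ 3 * (2 * c * S i) :=
        mul_le_mul_of_nonneg_left hθS (by positivity)
      have h7 : 2 * (k : ℝ) ^ 3 * (2 * c * S i) = S i / 2 := by
        have : 2 * (k : ℝ) ^ 3 * (2 * c * S i) = c * (8 * (k : ℝ) ^ 3) * S i / 2 := by ring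
        rw [this, hcmul]
        ring
      linarith
    obtain ⟨j, hj1, hj2, hj3⟩ := near_one hG hdel0 hdelk hθ0 hθdel hθk (by omega) (by omega)
      h3 hex
    obtain ⟨a, ha⟩ : ∃ a, j = k + a := ⟨j - k, by omega⟩
    subst ha
    refine ⟨a, ?_, hj1, hj2⟩
    rw [hJ, Finset.mem_filter, mem_range]
    refine ⟨by omega, ?_⟩
    have hSa : S a ≤ 2 * S i := by
      have e1 : S a ≤ S (i + k) := hSm (by omega)
      have e2 : S (i + k) ≤ S i + (k : ℝ) * c * S (i + k) := SS_add_le P hes0 hc0 hs₀0 i k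
      have e3 : 0 < S (i + k) := lt_of_lt_of_le hs₀0 (hS0 _)
      have e4 : (k : ℝ) * c * S (i + k) ≤ 1 / 8 * S (i + k) :=
        mul_le_mul_of_nonneg_right hck e3.le
      linarith
    have hle : min es (c * S a) ≤ θ := by
      rw [hθ]
      refine min_le_min le_rfl ?_
      have := mul_le_mul_of_nonneg_left hSa hc0.le
      linarith
    exact rw_mono hj3 hle
  -- counting
  set N := (range m).filter (fun l => g l ≤ 1 - del) with hN
  set N' := (range m).filter (fun l => g l ≤ 1 - del ∧ k + 2 ≤ l ∧ l + 2 * k ≤ m) with hN'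
  have hc1 : D - 4 ≤ (N.card : ℝ) + del * m := by
    refine hsum.trans ?_
    calc ∑ j ∈ range m, (1 - g j)
        ≤ ∑ j ∈ range m, ((if g j ≤ 1 - del then (1 : ℝ) else 0) + del) := by
          apply Finset.sum_le_sum
          intro j _
          split_ifs with h
          · linarith [hg j]
          · rw [not_le] at h
            linarith
      _ = (N.card : ℝ) + del * m := by
          rw [Finset.sum_add_distrib, Finset.sum_const, Finset.card_range, nsmul_eq_mul,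
            Finset.sum_boole, hN]
          ring
  have hc2 : N.card ≤ N'.card + (k + 2) + 2 * k := by
    have hsub : N ⊆ (N' ∪ range (k + 2)) ∪ Ico (m + 1 - 2 * k) (m + 1) := by
      intro l hl'
      rw [hN, Finset.mem_filter, mem_range] at hl'
      rw [Finset.mem_union, Finset.mem_union, hN', Finset.mem_filter, mem_range, mem_range,
        Finset.mem_Ico]
      by_cases h1 : k + 2 ≤ l
      · by_cases h2 : l + 2 * k ≤ m
        · left; left
          exact ⟨hl'.1, hl'.2, h1, h2⟩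
        · right
          omega
      · left; right
        omega
    have h1 := Finset.card_le_card hsub
    have h2 := Finset.card_union_le (N' ∪ range (k + 2)) (Ico (m + 1 - 2 * k) (m + 1))
    have h3 := Finset.card_union_le N' (range (k + 2))
    rw [Finset.card_range] at h3
    rw [Nat.card_Ico] at h2
    omega
  have hc3 : N'.card ≤ J.card * (k + 1) := by
    have hsub : N' ⊆ J.biUnion (fun i => Icc (i + 2) (k + i + 2)) := by
      intro l hl'
      rw [hN', Finset.mem_filter, mem_range] at hl'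
      obtain ⟨i, hi, h1, h2⟩ := hnear l hl'.2.2.1 hl'.2.2.2 hl'.2.1
      rw [Finset.mem_biUnion]
      refine ⟨i, hi, ?_⟩
      rw [Finset.mem_Icc]
      omega
    refine (Finset.card_le_card hsub).trans ?_
    refine Finset.card_biUnion_le_card_mul _ _ _ ?_
    intro i _
    rw [Nat.card_Icc]
    omega
  have hD0 : 0 ≤ D := by linarith
  have hdm : del * m ≤ D / 24 := by
    have h1 : del * m ≤ del * (((KN k : ℝ) + 4) * D) := mul_le_mul_of_nonneg_left hm hdel0.le
    have h2 : del * (((KN k : ℝ) + 4) * D) ≤ 1 / 24 * D := by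
      rw [← mul_assoc]
      exact mul_le_mul_of_nonneg_right hdelK hD0
    linarith
  have hc2' : (N.card : ℝ) ≤ (N'.card : ℝ) + (k + 2) + 2 * k := by exact_mod_cast hc2
  have hc3' : (N'.card : ℝ) ≤ (J.card : ℝ) * (k + 1) := by exact_mod_cast hc3
  have hc4 : D / 2 ≤ (J.card : ℝ) * (k + 1) := by linarith
  have hfin : (L₀ + 1) * (1 + Real.log (1 / c₁)) ≤ (J.card : ℝ) * lam := by
    have h1 : 2 * ((k : ℝ) + 1) * (L₀ + 1) / lam * (1 + Real.log (1 / c₁)) ≤
        2 * ((J.card : ℝ) * (k + 1)) := by linarith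
    have h2 : 2 * ((k : ℝ) + 1) * (L₀ + 1) / lam * (1 + Real.log (1 / c₁)) =
        2 * ((k : ℝ) + 1) * ((L₀ + 1) * (1 + Real.log (1 / c₁)) / lam) := by ring
    rw [h2] at h1
    have h3 : (L₀ + 1) * (1 + Real.log (1 / c₁)) / lam ≤ (J.card : ℝ) := by
      have h4 : 2 * ((k : ℝ) + 1) * ((L₀ + 1) * (1 + Real.log (1 / c₁)) / lam) ≤
          2 * ((k : ℝ) + 1) * (J.card : ℝ) := by linarith
      exact le_of_mul_le_mul_left h4 (by positivity)
    rwa [div_le_iff₀ hlam0] at h3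
  have hLy : 0 ≤ L₀ * Real.log (1 / c₁) := mul_nonneg hL₀0 hy
  nlinarith

end Pool.Agent.H79.PL
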